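import Pool.Agent.Helper80.NHM.Base
open MeasureTheory Filter Topology Set Metric
open scoped ENNReal NNReal RealInnerProductSpace

namespace Pool.Agent.Helper80.NHM

open Pool.Agent.Helper533

variable {n : ℕ}

theorem nhmf_cont_gradient {φ : Sp n → ℝ} (hφ : ContDiff ℝ (⊤ : ℕ∞) φ) :
    Continuous (gradient φ) := by
  have h1 : Continuous (fderiv ℝ φ) := hφ.continuous_fderiv (by simp)
  exact (InnerProductSpace.toDual ℝ (Sp n)).symm.continuous.comp h1

theorem nhmf_gradient_zero {φ : Sp n → ℝ} {x : Sp n} (hx : x ∉ tsupport φ) : gradient φ x = 0 := by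
  unfold gradient
  rw [fderiv_of_notMem_tsupport ℝ hx, map_zero]

theorem nhmf_int (hn : 1 ≤ n) {K : Set (Sp n)} (hK : IsCompact K) {E : Type*}
    [NormedAddCommGroup E] {u : Sp n → E} (hu : MemLp u (n : ℝ≥0∞) (volume.restrict K)) :
    IntegrableOn u K := by
  have : IsFiniteMeasure (volume.restrict K) := ⟨by simpa using hK.measure_lt_top⟩
  exact hu.integrable (by exact_mod_cast hn)

theorem nhmf_int1 (hn : 1 ≤ n) {U : Set (Sp n)} {u : Sp n → ℝ} {φ : Sp n → ℝ}
    (hu : ∀ K ⊆ U, IsCompact K → MemLp u (n : ℝ≥0∞) (volume.restrict K)) (hφ : IsTest U φ) :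
    Integrable fun x => u x • gradient φ x := by
  have h1 := (nhmf_int hn hφ.compact (hu _ hφ.support hφ.compact)).smul_continuousOn
    (nhmf_cont_gradient hφ.smooth).continuousOn hφ.compact
  refine (integrableOn_iff_integrable_of_support_subset fun x hx => ?_).1 h1
  by_contra h
  exact hx (by show u x • gradient φ x = 0; rw [nhmf_gradient_zero h, smul_zero])

theorem nhmf_int2 (hn : 1 ≤ n) {U : Set (Sp n)} {H : Sp n → Sp n} {φ : Sp n → ℝ}
    (hu : ∀ K ⊆ U, IsCompact K → MemLp H (n : ℝ≥0∞) (volume.restrict K)) (hφ : IsTest U φ) :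
    Integrable fun x => φ x • H x := by
  have h1 := (nhmf_int hn hφ.compact (hu _ hφ.support hφ.compact)).continuousOn_smul
    hφ.smooth.continuous.continuousOn hφ.compact
  refine (integrableOn_iff_integrable_of_support_subset fun x hx => ?_).1 h1
  by_contra h
  exact hx (by show φ x • H x = 0; rw [image_eq_zero_of_notMem_tsupport h, zero_smul])

theorem nhmf_add (hn : 1 ≤ n) {U : Set (Sp n)} {u v : Sp n → ℝ} {H L : Sp n → Sp n}
    (hu : IsWeakGrad U u H) (hv : IsWeakGrad U v L) :
    IsWeakGrad U (fun x => u x + v x) (fun x => H x + L x) := by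
  refine ⟨fun K h1 h2 => (hu.fun_loc K h1 h2).add (hv.fun_loc K h1 h2),
    fun K h1 h2 => (hu.grad_loc K h1 h2).add (hv.grad_loc K h1 h2), fun φ hφ => ?_⟩
  simp only [add_smul, smul_add]
  rw [integral_add (nhmf_int1 hn hu.fun_loc hφ) (nhmf_int1 hn hv.fun_loc hφ),
    integral_add (nhmf_int2 hn hu.grad_loc hφ) (nhmf_int2 hn hv.grad_loc hφ),
    hu.ibp φ hφ, hv.ibp φ hφ, neg_add]

theorem nhmf_smul {U : Set (Sp n)} {u : Sp n → ℝ} {H : Sp n → Sp n}
    (hu : IsWeakGrad U u H) (c : ℝ) :
    IsWeakGrad U (fun x => c * u x) (fun x => c • H x) := by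
  refine ⟨fun K h1 h2 => (hu.fun_loc K h1 h2).const_mul c,
    fun K h1 h2 => (hu.grad_loc K h1 h2).const_smul c, fun φ hφ => ?_⟩
  have e1 : ∀ x, (c * u x) • gradient φ x = c • (u x • gradient φ x) := fun x => mul_smul _ _ _
  have e2 : ∀ x, φ x • c • H x = c • (φ x • H x) := fun x => smul_comm _ _ _
  simp only [e1, e2]
  rw [integral_smul, integral_smul, hu.ibp φ hφ, smul_neg]

theorem nhmf_int_gradient {φ : Sp n → ℝ} (hφ : ContDiff ℝ (⊤ : ℕ∞) φ) (hc : HasCompactSupport φ) :
    ∫ x, gradient φ x = 0 := by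
  have hd : Continuous (fderiv ℝ φ) := hφ.continuous_fderiv (by simp)
  have hg : Continuous (gradient φ) := nhmf_cont_gradient hφ
  have hgc : HasCompactSupport (gradient φ) :=
    (hc.fderiv ℝ).comp_left (g := (InnerProductSpace.toDual ℝ (Sp n)).symm) (map_zero _)
  have hgi : Integrable (gradient φ) := hg.integrable_of_hasCompactSupport hgc
  refine ext_inner_left ℝ fun v => ?_
  rw [inner_zero_right]
  have h1 : ⟪v, ∫ x, gradient φ x⟫ = ∫ x, ⟪v, gradient φ x⟫ :=
    (integral_inner hgi v).symm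
  rw [h1]
  have h2 : ∀ x, ⟪v, gradient φ x⟫ = fderiv ℝ φ x v := by
    intro x
    rw [real_inner_comm]
    show inner ℝ ((InnerProductSpace.toDual ℝ (Sp n)).symm (fderiv ℝ φ x)) v = _
    rw [InnerProductSpace.toDual_symm_apply]
  simp only [h2]
  have hvi : Integrable fun x => fderiv ℝ φ x v :=
    (hd.clm_apply continuous_const).integrable_of_hasCompactSupport (hc.fderiv_apply ℝ v)
  have h3 := integral_mul_fderiv_eq_neg_fderiv_mul_of_integrable (μ := (volume : Measure (Sp n)))
    (f := fun _ : Sp n => (1 : ℝ)) (g := φ) (v := v) (by simp) (by simpa using hvi)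
    (by simpa using hφ.continuous.integrable_of_hasCompactSupport hc)
    (fun x _ => differentiableAt_const _) (fun x _ => (hφ.differentiable (by simp)) x)
  simpa using h3

theorem nhmf_const {U : Set (Sp n)} (c : ℝ) :
    IsWeakGrad U (fun _ => c) (fun _ => (0 : Sp n)) := by
  refine ⟨fun K _ h2 => ?_, fun K _ h2 => ?_, fun φ hφ => ?_⟩
  · have : IsFiniteMeasure (volume.restrict K) := ⟨by simpa using h2.measure_lt_top⟩
    exact memLp_const c
  · have : IsFiniteMeasure (volume.restrict K) := ⟨by simpa using h2.measure_lt_top⟩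
    exact memLp_const 0
  · rw [integral_smul, nhmf_int_gradient hφ.smooth hφ.compact]
    simp

theorem nhmf_sum (hn : 1 ≤ n) {U : Set (Sp n)} {ι : Type*} (s : Finset ι) {u : ι → Sp n → ℝ}
    {H : ι → Sp n → Sp n} (hu : ∀ j, IsWeakGrad U (u j) (H j)) (c : ι → ℝ) :
    IsWeakGrad U (fun x => ∑ j ∈ s, c j * u j x) (fun x => ∑ j ∈ s, c j • H j x) := by
  classical
  induction s using Finset.induction_on with
  | empty => simpa using nhmf_const (U := U) 0
  | insert a s ha ih =>
    simp only [Finset.sum_insert ha]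
    exact nhmf_add hn (nhmf_smul (hu a) (c a)) ih

theorem nhmf_congr {U : Set (Sp n)} {u v : Sp n → ℝ} {H L : Sp n → Sp n}
    (hu : IsWeakGrad U u H) (h1 : ∀ x ∈ U, v x = u x) (h2 : ∀ x ∈ U, L x = H x) :
    IsWeakGrad U v L := by
  refine ⟨fun K hK hc => ?_, fun K hK hc => ?_, fun φ hφ => ?_⟩
  · refine (memLp_congr_ae ?_).1 (hu.fun_loc K hK hc)
    exact (ae_restrict_iff' hc.measurableSet).2
      (Filter.Eventually.of_forall fun x hx => (h1 x (hK hx)).symm)
  · refine (memLp_congr_ae ?_).1 (hu.grad_loc K hK hc)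
    exact (ae_restrict_iff' hc.measurableSet).2
      (Filter.Eventually.of_forall fun x hx => (h2 x (hK hx)).symm)
  · have e1 : ∀ x, v x • gradient φ x = u x • gradient φ x := by
      intro x
      by_cases hx : x ∈ tsupport φ
      · rw [h1 x (hφ.support hx)]
      · rw [nhmf_gradient_zero hx, smul_zero, smul_zero]
    have e2 : ∀ x, φ x • L x = φ x • H x := by
      intro x
      by_cases hx : x ∈ tsupport φ
      · rw [h2 x (hφ.support hx)]
      · rw [image_eq_zero_of_notMem_tsupport hx, zero_smul, zero_smul]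
    simp only [e1, e2]
    exact hu.ibp φ hφ

/-- F2: weak derivative of an affine composition -/
theorem weakDeriv_affine (hn : 1 ≤ n) {G : Set (Sp n)} (hG : IsOpen G) {f : Sp n → Sp n}
    {D : Sp n → (Sp n →L[ℝ] Sp n)} (hf : IsWeakDeriv G f D) (R : Sp n →L[ℝ] Sp n) (b : Sp n) :
    IsWeakDeriv G (fun x => R (f x) + b) (fun x => R ∘L D x) := by
  intro i
  have h1 := nhmf_add hn (nhmf_sum hn (Finset.univ : Finset (Fin n)) (fun j => hf j)
    (fun j => (R (EuclideanSpace.single j (1 : ℝ))) i)) (nhmf_const (U := G) (b i))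
  refine nhmf_congr h1 (fun x _ => ?_) (fun x _ => ?_)
  · have e1 : f x = ∑ j, f x j • EuclideanSpace.single j (1 : ℝ) := by
      ext k
      simp [Finset.sum_apply, Pi.single_apply]
    show (R (f x) + b) i = _
    conv_lhs => rw [e1]
    simp only [map_sum, map_smul, PiLp.add_apply]
    congr 1
    rw [show (∑ j, f x j • R (EuclideanSpace.single j (1 : ℝ))) i =
      ∑ j, (f x j • R (EuclideanSpace.single j (1 : ℝ))) i by simp]
    refine Finset.sum_congr rfl fun j _ => ?_
    rw [PiLp.smul_apply, smul_eq_mul, mul_comm]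
  · show ContinuousLinearMap.adjoint (R ∘L D x) (EuclideanSpace.single i (1 : ℝ)) = _
    rw [ContinuousLinearMap.adjoint_comp, ContinuousLinearMap.comp_apply, add_zero]
    have e2 : ContinuousLinearMap.adjoint R (EuclideanSpace.single i (1 : ℝ)) =
        ∑ j, (R (EuclideanSpace.single j (1 : ℝ))) i • EuclideanSpace.single j (1 : ℝ) := by
      ext k
      have e3 : (ContinuousLinearMap.adjoint R (EuclideanSpace.single i (1 : ℝ))) k =
          ⟪(EuclideanSpace.single k (1 : ℝ) : Sp n),
            ContinuousLinearMap.adjoint R (EuclideanSpace.single i (1 : ℝ))⟫ := by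
        simp [EuclideanSpace.inner_single_left]
      rw [e3, ContinuousLinearMap.adjoint_inner_right]
      simp [EuclideanSpace.inner_single_right, Pi.single_apply]
    rw [e2, map_sum]
    simp only [map_smul]

/-- F3: the constant case -/
theorem weakDeriv_const (hn : 1 ≤ n) {G : Set (Sp n)} (hG : IsOpen G) {f : Sp n → Sp n}
    (hf : ∀ x ∈ G, ∀ y ∈ G, f x = f y) : IsWeakDeriv G f (fun _ => 0) := by
  intro i
  rcases G.eq_empty_or_nonempty with h | ⟨y, hy⟩
  · subst h
    exact nhmf_congr (nhmf_const (0 : ℝ)) (fun x hx => absurd hx (Set.notMem_empty x))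
      (fun x hx => absurd hx (Set.notMem_empty x))
  · exact nhmf_congr (nhmf_const (f y i)) (fun x hx => by rw [hf x hx y hy])
      (fun x _ => by simp)

end Pool.Agent.Helper80.NHM
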