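import Pool.Agent.Helper80.NHM.F.Refl
import Pool.Agent.Helper80.NHM.F.WeakD
open MeasureTheory Filter Topology Set Metric
open scoped ENNReal NNReal RealInnerProductSpace

namespace Pool.Agent.Helper80.NHM

open Pool.Agent.Helper533

variable {n : ℕ}

/-- F4: assembly -/
theorem assemble (hn : 2 ≤ n) (hB : PartB n) (hC : PartC n) (hD : PartD n) (hE : PartE n)
    (hadm : ∀ A, IsAdmissible n A → ∃ α β, AOp n α β A)
    (hharm : ∀ (A : Sp n → Sp n → Sp n) (α β : ℝ), AOp n α β A → ∀ U : Set (Sp n), IsOpen U →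
      ∀ u, IsHarmonic A U u ↔ Harm A U u)
    {G : Set (Sp n)} (hG : IsOpen G) (hGc : IsPreconnected G) {f : Sp n → Sp n}
    (hf : IsNHarmonicMorphism G f) :
    IsQuasiregular G f ∨ ∀ r, IsReflection r → IsQuasiregular G (r ∘ f) := by
  obtain ⟨Astar, A, hAs, hA, hm⟩ := hf
  obtain ⟨α, β, hAs'⟩ := hadm Astar hAs
  obtain ⟨α', β', hA'⟩ := hadm A hA
  have hM : Morph Astar A G f := by
    refine ⟨hm.1, fun G' hG' u hu => ?_⟩
    have h1 := hm.2 G' hG' u ((hharm A α' β' hA' G' hG' u).2 hu)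
    exact (hharm Astar α β hAs' _ (hm.1.isOpen_inter_preimage hG hG') _).1 h1
  by_cases hne : ∃ x ∈ G, ∃ y ∈ G, f x ≠ f y
  · obtain ⟨ho, hl, hv⟩ := hB α β α' β' Astar A hAs' hA' G f hG hGc hM hne
    obtain ⟨hLF, hEI⟩ := hC α β α' β' Astar A hAs' hA' G f hG hGc hM ho hl
    obtain ⟨D, K, hK, hWD, hdist⟩ := hD G f hG hm.1 ho hl hLF hEI hv
    rcases hE G f D K hG hGc hm.1 ho hLF hWD hdist with hpos | hneg
    · left
      refine ⟨hm.1, D, K, hK, hWD, ?_⟩
      filter_upwards [hdist, hpos] with x hx hx'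
      rwa [abs_of_nonneg hx'] at hx
    · right
      intro r hr
      obtain ⟨R, b, hrR, hdet, hiso⟩ := refl_formula hr
      have hrf : r ∘ f = fun x => R (f x) + b := by
        funext x
        simp [hrR]
      rw [hrf]
      have hc : ContinuousOn (fun x => R (f x) + b) G :=
        (R.continuous.comp_continuousOn hm.1).add continuousOn_const
      refine ⟨hc, fun x => R ∘L D x, K, hK, weakDeriv_affine (by omega) hG hWD R b, ?_⟩
      filter_upwards [hdist, hneg] with x hx hx'
      have h1 : ‖R ∘L D x‖ ≤ ‖D x‖ := by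
        refine ContinuousLinearMap.opNorm_le_bound _ (norm_nonneg _) fun y => ?_
        rw [ContinuousLinearMap.comp_apply, hiso]
        exact (D x).le_opNorm y
      have h2 : (R ∘L D x).det = |(D x).det| := by
        have : (R ∘L D x).det = R.det * (D x).det := by
          show LinearMap.det ((R : Sp n →ₗ[ℝ] Sp n) ∘ₗ (D x : Sp n →ₗ[ℝ] Sp n)) = _
          exact LinearMap.det_comp _ _
        rw [this, hdet, abs_of_nonpos hx']
        ring
      rw [h2]
      exact (pow_le_pow_left₀ (norm_nonneg _) h1 n).trans hx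
  · push Not at hne
    left
    refine ⟨hm.1, fun _ => 0, 1, le_rfl, weakDeriv_const (by omega) hG hne, ?_⟩
    refine Filter.Eventually.of_forall fun x => ?_
    have : (0 : Sp n →L[ℝ] Sp n).det = 0 := by
      show LinearMap.det ((0 : Sp n →L[ℝ] Sp n) : Sp n →ₗ[ℝ] Sp n) = 0
      have h0 : ((0 : Sp n →L[ℝ] Sp n) : Sp n →ₗ[ℝ] Sp n) = 0 := rfl
      rw [h0, LinearMap.det_zero]
      simp [finrank_euclideanSpace, show n ≠ 0 by omega]
    rw [this]
    simp [show n ≠ 0 by omega]

end Pool.Agent.Helper80.NHM
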