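import Pool.Agent.Helper80.NHM.Base
import Pool.Agent.Helper533.NHM.PotC
import Pool.Agent.Helper533.NHM.Paste
import Pool.Agent.Helper897.NHM.Stmts
open MeasureTheory Filter Topology Set Metric
open scoped ENNReal NNReal RealInnerProductSpace

namespace Pool.Agent.Helper80.NHM

open Pool.Agent.Helper533

variable {n : ℕ}

/-- potentials exist for every morphism -/
theorem potExist (hn : 2 ≤ n) : Pool.Agent.Helper897.NHM.PotExist n := by
  intro α β α' β' Astar A hAs hA G f hG hf
  obtain ⟨L, C, hL, hC, hpot⟩ := Polar.target_potential hn hA.pos (hA.pos.trans_le hA.le)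
  refine ⟨C, L, hL, fun y0 s hs a ha t ht hts => ?_⟩
  have hL0 : 0 < L := by linarith
  have hLt : L * t ≤ s := by
    have h1 : L * t ≤ L * (s / (8 * L)) := mul_le_mul_of_nonneg_left hts hL0.le
    have h2 : L * (s / (8 * L)) = s / 8 := by
      field_simp
    rw [h2] at h1
    linarith
  obtain ⟨ω, W, M, hM, hωc, hω01, hω0, hωt, -, hLH, he, hTP1, hTP2, hTP3⟩ :=
    hpot A hA.op hA.smono y0 a s t ht ha hLt
  have hharm : Harm A (ball y0 s ∩ {x | ω x < M}) ω := ⟨hωc.continuousOn, W, hLH, he⟩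
  have hop : IsOpen (ball y0 s ∩ {x | ω x < M}) :=
    isOpen_ball.inter (isOpen_lt hωc continuous_const)
  obtain ⟨hvc, V, hV, heV⟩ := hf.pull _ hop ω hharm
  have hset : G ∩ f ⁻¹' (ball y0 s ∩ {x | ω x < M}) =
      (G ∩ f ⁻¹' ball y0 s) ∩ {x | (ω ∘ f) x < M} := by
    ext x
    simp [and_assoc]
  rw [hset] at hV heV
  have hDo : IsOpen (G ∩ f ⁻¹' ball y0 s) := hf.cont.isOpen_inter_preimage hG isOpen_ball
  have hvc' : ContinuousOn (ω ∘ f) (G ∩ f ⁻¹' ball y0 s) :=
    hωc.comp_continuousOn (hf.cont.mono inter_subset_left)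
  have hS := Polar.paste_sup hn hAs.pos (hAs.pos.trans_le hAs.le) hAs.op hDo hvc'
    (fun x _ => (hω01 (f x)).2) hV heV
  refine ⟨ω, M, fun x => if (ω ∘ f) x < M then V x else 0, ?_⟩
  refine ⟨hωc, fun w => (hω01 w).1, fun w => (hω01 w).2, fun w hw => hωt w hw, ?_, ?_, hS.1, ?_⟩
  · intro R hR hR2 w w' hw hw'
    exact hTP2 R hR (by linarith) w w' hw hw'
  · intro R hR w w' hw hw'
    rcases le_or_gt R (s / 8) with h | h
    · exact hTP3 R hR h w w' hw hw'
    · have h1 := hTP1 w (by linarith)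
      have h2 := (hω01 w').1
      linarith
  · intro φ hφ
    rw [← heV φ hφ]
    refine integral_congr_ae (Eventually.of_forall fun x => ?_)
    by_cases hx : x ∈ tsupport φ
    · have h1 : (ω ∘ f) x < M := (hφ.supp hx).2
      simp only [if_pos h1]
    · have h2 : gradient φ x = 0 := Polar.grad_zero_of_notMem hx
      simp only [h2, inner_zero_right]

end Pool.Agent.Helper80.NHM
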