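import Pool.Agent.Helper80.NHM.B.PartB
import Pool.Agent.Helper80.NHM.F.Assemble
import Pool.Agent.Helper80.NHM.F.PotEx
import Pool.Agent.Helper533.NHM.Conv
import Pool.Agent.Helper897.NHM.PartC
import Pool.Agent.Helper171.NHM.PartD
import Pool.Agent.Helper171.NHM.PartE
open MeasureTheory Filter Topology Set Metric
open scoped ENNReal NNReal RealInnerProductSpace

namespace Pool.Agent.Helper80.NHM

variable {n : ℕ}

/-- an `n`-harmonic morphism is quasiregular, up to a reflection (`n ≥ 2`) -/
theorem quasiregular_or_reflected (hn : 2 ≤ n) {G : Set (Sp n)} (hG : IsOpen G)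
    (hGc : IsPreconnected G) {f : Sp n → Sp n} (hf : IsNHarmonicMorphism G f) :
    IsQuasiregular G f ∨ ∀ r, IsReflection r → IsQuasiregular G (r ∘ f) :=
  assemble hn (partB hn)
    (Pool.Agent.Helper897.NHM.partC hn (potExist hn)
      (fun _ _ _ hD h => (Pool.Agent.Helper533.NHM.lh_iff hn hD).1 h))
    (Pool.Agent.Helper171.NHMD.partD hn) (Pool.Agent.Helper171.NHME.partE (by omega))
    (fun _ h => Pool.Agent.Helper533.NHM.aOp_of_isAdmissible hn h)
    (fun _ _ _ _ _ hU _ => Pool.Agent.Helper533.NHM.isHarmonic_iff hn hU) hG hGc hf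

end Pool.Agent.Helper80.NHM
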