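import Pool.Agent.Helper80.NHM.Decl
import Pool.Agent.Helper80.NHM.F.Final
open MeasureTheory Filter Topology Set
open scoped ENNReal NNReal RealInnerProductSpace

/-!
The definitions of `Decl.lean` agree with those of `Stmt.lean`.
-/

namespace Pool.Agent.Helper80.NHarm

variable {n : ℕ}

theorem isTest_iff {U : Set (Sp n)} {φ : Sp n → ℝ} : IsTest U φ ↔ NHM.IsTest U φ :=
  ⟨fun h => ⟨h.1, h.2.1, h.2.2⟩, fun h => ⟨h.smooth, h.compact, h.support⟩⟩

theorem isWeakGrad_iff {U : Set (Sp n)} {u : Sp n → ℝ} {H : Sp n → Sp n} :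
    IsWeakGrad U u H ↔ NHM.IsWeakGrad U u H :=
  ⟨fun h => ⟨h.1, h.2.1, fun φ hφ => h.2.2 φ (isTest_iff.2 hφ)⟩,
    fun h => ⟨h.fun_loc, h.grad_loc, fun φ hφ => h.ibp φ (isTest_iff.1 hφ)⟩⟩

theorem isAdmissible_iff {A : Sp n → Sp n → Sp n} : IsAdmissible A → NHM.IsAdmissible n A := by
  rintro ⟨h1, h2, ⟨α, β, hα, hαβ, h3, h4⟩, h5, h6⟩
  exact ⟨h1, h2, ⟨α, β, hα, hαβ, h3, h4⟩, h5, h6⟩

theorem isHarmonic_iff {A : Sp n → Sp n → Sp n} {U : Set (Sp n)} {u : Sp n → ℝ} :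
    IsHarmonic A U u ↔ NHM.IsHarmonic A U u := by
  constructor
  · rintro ⟨hc, H, hH, he⟩
    exact ⟨hc, H, isWeakGrad_iff.1 hH, fun φ hφ => he φ (isTest_iff.2 hφ)⟩
  · rintro ⟨hc, H, hH, he⟩
    exact ⟨hc, H, isWeakGrad_iff.2 hH, fun φ hφ => he φ (isTest_iff.1 hφ)⟩

theorem isMorphism_iff {Astar A : Sp n → Sp n → Sp n} {G : Set (Sp n)} {f : Sp n → Sp n} :
    IsMorphism Astar A G f → NHM.IsMorphism Astar A G f := by
  rintro ⟨hc, h⟩
  exact ⟨hc, fun G' hG' u hu => isHarmonic_iff.1 (h G' hG' u (isHarmonic_iff.2 hu))⟩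

theorem row_eq (L : Lin n) (i : Fin n) :
    ContinuousLinearMap.adjoint L (EuclideanSpace.single i (1 : ℝ)) = row L i := by
  ext j
  have e3 : (ContinuousLinearMap.adjoint L (EuclideanSpace.single i (1 : ℝ))) j =
      ⟪(EuclideanSpace.single j (1 : ℝ) : Sp n),
        ContinuousLinearMap.adjoint L (EuclideanSpace.single i (1 : ℝ))⟫ := by
    simp [EuclideanSpace.inner_single_left]
  rw [e3, ContinuousLinearMap.adjoint_inner_right]
  simp [EuclideanSpace.inner_single_right, row, entry]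

theorem isQuasiregular_iff {G : Set (Sp n)} {f : Sp n → Sp n} :
    NHM.IsQuasiregular G f → IsQuasiregular G f := by
  rintro ⟨hc, D, K, hK, h1, h2⟩
  refine ⟨hc, D, K, hK, fun i => ?_, h2⟩
  have h := isWeakGrad_iff.2 (h1 i)
  simp only [row_eq] at h
  exact h

theorem isReflection_iff {r : Sp n → Sp n} : IsReflection r → NHM.IsReflection r := by
  rintro ⟨h1, h2, v, c, hv, h⟩
  exact ⟨h1, h2, v, c, hv, h⟩

theorem main (hn : 3 ≤ n) {G : Set (Sp n)} (hG : IsOpen G) (hGc : IsConnected G)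
    {f : Sp n → Sp n} (hf : IsNHarmonicMorphism G f) :
    IsQuasiregular G f ∨ ∀ r : Sp n → Sp n, IsReflection r → IsQuasiregular G (r ∘ f) := by
  obtain ⟨Astar, A, h1, h2, h3⟩ := hf
  rcases NHM.quasiregular_or_reflected (by omega) hG hGc.isPreconnected
    ⟨Astar, A, isAdmissible_iff h1, isAdmissible_iff h2, isMorphism_iff h3⟩ with h | h
  · exact Or.inl (isQuasiregular_iff h)
  · exact Or.inr fun r hr => isQuasiregular_iff (h r (isReflection_iff hr))

end Pool.Agent.Helper80.NHarm
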