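import Pool.Agent.Helper80.NHM.Base
open MeasureTheory Filter Topology Set Metric
open scoped ENNReal NNReal RealInnerProductSpace

namespace Pool.Agent.Helper80.NHM

open Pool.Agent.Helper533

variable {n : ℕ}

/-- a point with the same distances to the points of the hyperplane is the point or its mirror
image -/
theorem refl_two {v x y : Sp n} {c : ℝ} (hv : v ≠ 0)
    (h : ∀ z, ⟪v, z⟫ = c → ‖y - z‖ = ‖x - z‖) :
    y = x ∨ y = x - (2 * ((⟪v, x⟫ - c) / ‖v‖ ^ 2)) • v := by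
  have hv2 : 0 < ‖v‖ ^ 2 := by positivity
  set t : ℝ := (⟪v, x⟫ - c) / ‖v‖ ^ 2 with ht
  have htv : t * ‖v‖ ^ 2 = ⟪v, x⟫ - c := div_mul_cancel₀ _ hv2.ne'
  set p : Sp n := x - t • v with hp
  have hpc : ⟪v, p⟫ = c := by
    rw [hp, inner_sub_right, real_inner_smul_right, real_inner_self_eq_norm_sq, htv]
    ring
  have hxp : x - p = t • v := by rw [hp]; abel
  have hyp0 : ‖y - p‖ = ‖x - p‖ := h p hpc
  have horth : ∀ w, ⟪v, w⟫ = 0 → ⟪y - p, w⟫ = 0 := by
    intro w hw
    have h1 := h (p + w) (by rw [inner_add_right, hpc, hw, add_zero])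
    have h2 : ‖(y - p) - w‖ ^ 2 = ‖(x - p) - w‖ ^ 2 := by
      rw [sub_sub, sub_sub, h1]
    rw [norm_sub_sq_real (y - p) w, norm_sub_sq_real (x - p) w, hyp0, hxp, real_inner_smul_left,
      hw] at h2
    linarith
  set s : ℝ := ⟪v, y - p⟫ / ‖v‖ ^ 2 with hs
  have hsv : s * ‖v‖ ^ 2 = ⟪v, y - p⟫ := div_mul_cancel₀ _ hv2.ne'
  have hys : y - p = s • v := by
    have hw : ⟪v, (y - p) - s • v⟫ = 0 := by
      rw [inner_sub_right, real_inner_smul_right, real_inner_self_eq_norm_sq, hsv, sub_self]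
    have h1 := horth _ hw
    have h2 : ⟪(y - p) - s • v, (y - p) - s • v⟫ = 0 := by
      rw [inner_sub_left, h1, real_inner_smul_left, hw]
      ring
    exact sub_eq_zero.1 (inner_self_eq_zero.1 h2)
  have hst : s = t ∨ s = -t := by
    rw [hys, hxp, norm_smul, norm_smul] at hyp0
    have h1 := mul_right_cancel₀ (norm_ne_zero_iff.2 hv) hyp0
    rw [Real.norm_eq_abs, Real.norm_eq_abs] at h1
    exact abs_eq_abs.1 h1
  have hy : y = p + s • v := by rw [← hys]; abel
  rcases hst with h1 | h1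
  · left
    rw [hy, h1, hp]
    abel
  · right
    rw [hy, h1, hp, two_mul, add_smul, neg_smul]
    abel

/-- F1: a reflection is affine with linear part an isometry of determinant `-1` -/
theorem refl_formula {r : Sp n → Sp n} (hr : IsReflection r) :
    ∃ (R : Sp n →L[ℝ] Sp n) (b : Sp n), (∀ x, r x = R x + b) ∧ R.det = -1 ∧
      ∀ x, ‖R x‖ = ‖x‖ := by
  obtain ⟨hiso, hne, v, c, hv, hfix⟩ := hr
  have hv2 : 0 < ‖v‖ ^ 2 := by positivity
  have htwo : ∀ x, r x = x ∨ r x = x - (2 * ((⟪v, x⟫ - c) / ‖v‖ ^ 2)) • v := by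
    intro x
    refine refl_two hv fun z hz => ?_
    have h1 := hiso.dist_eq x z
    rw [hfix z hz, dist_eq_norm, dist_eq_norm] at h1
    exact h1
  obtain ⟨x0, hx0⟩ : ∃ x, r x ≠ x := by
    by_contra hcon
    push Not at hcon
    exact hne (funext hcon)
  have hx0' := (htwo x0).resolve_left hx0
  set t0 : ℝ := (⟪v, x0⟫ - c) / ‖v‖ ^ 2 with ht0
  have htv : t0 * ‖v‖ ^ 2 = ⟪v, x0⟫ - c := div_mul_cancel₀ _ hv2.ne'
  have ht0ne : t0 ≠ 0 := by
    intro h
    rw [h] at hx0'
    exact hx0 (by rw [hx0']; simp)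
  have hall : ∀ x, r x = x - (2 * ((⟪v, x⟫ - c) / ‖v‖ ^ 2)) • v := by
    intro x
    rcases htwo x with h | h
    · have h1 := hiso.dist_eq x x0
      rw [h, hx0', dist_eq_norm, dist_eq_norm] at h1
      have h2 : x - (x0 - (2 * t0) • v) = (x - x0) + (2 * t0) • v := by abel
      have h3 : ‖(x - x0) + (2 * t0) • v‖ ^ 2 = ‖x - x0‖ ^ 2 := by rw [← h2, h1]
      rw [norm_add_sq_real, norm_smul, mul_pow, Real.norm_eq_abs, sq_abs, real_inner_smul_right,
        real_inner_comm, inner_sub_right] at h3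
      have h4 : (4 * t0) * ((⟪v, x⟫ - ⟪v, x0⟫) + t0 * ‖v‖ ^ 2) = 0 := by linarith
      have h5 := (mul_eq_zero.1 h4).resolve_left (by positivity)
      have h6 : ⟪v, x⟫ - c = 0 := by linarith
      rw [h, h6]
      simp
    · exact h
  refine ⟨((ℝ ∙ v)ᗮ.reflection : Sp n ≃L[ℝ] Sp n), ((2 * c) / ‖v‖ ^ 2) • v, ?_, ?_, ?_⟩
  · intro x
    rw [hall x]
    change _ = (ℝ ∙ v)ᗮ.reflection x + _
    rw [Submodule.reflection_orthogonal_apply, Submodule.reflection_singleton_apply]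
    simp only [RCLike.ofReal_real_eq_id, id_eq]
    match_scalars
    · ring
    · field_simp
      ring
  · change LinearMap.det ((ℝ ∙ v)ᗮ.reflection.toLinearMap) = -1
    rw [Submodule.det_reflection, Submodule.orthogonal_orthogonal, finrank_span_singleton hv]
    norm_num
  · intro x
    exact (ℝ ∙ v)ᗮ.reflection.norm_map x

end Pool.Agent.Helper80.NHM
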